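import Mathlib

set_option autoImplicit false

namespace Pool.Agent.Results.MP_30687b_ag.Cusp

open MvPolynomial

/-- An element of Hom_R(F^e_* R, R): an additive map with φ(r^(p^e) s) = r φ(s). -/
def IsCartierMap (p e : ℕ) {R : Type} [CommRing R] (φ : R →+ R) : Prop :=
  ∀ r s : R, φ (r ^ p ^ e * s) = r * φ s

/-- Strong F-regularity. -/
def StronglyFRegular (p : ℕ) (R : Type) [CommRing R] : Prop :=
  ∀ c : R, (∀ P ∈ minimalPrimes R, c ∉ P) →
    ∃ e : ℕ, 1 ≤ e ∧ ∃ ψ : R →+ R, IsCartierMap p e ψ ∧ ψ c = 1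

/-- The Frobenius power of an ideal. -/
def frobeniusPower (q : ℕ) {R : Type} [CommRing R] (I : Ideal R) : Ideal R :=
  Ideal.span ((fun g => g ^ q) '' (I : Set R))

/-- A p-family of ideals. -/
def IsPFamily (p : ℕ) {R : Type} [CommRing R] (b : ℕ → Ideal R) : Prop :=
  ∀ e, frobeniusPower p (b e) ≤ b (e + 1)

/-- The family equals its p-stabilization. -/
def IsPStable (p : ℕ) {R : Type} [CommRing R] (b : ℕ → Ideal R) : Prop :=
  ∀ e, {r : R | ∃ N : ℕ, ∀ f, N ≤ f → r ^ p ^ f ∈ b (e + f)} = (b e : Set R)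

/-- Property (S). -/
def PropertyS (p : ℕ) {R : Type} [CommRing R] (b : ℕ → Ideal R) : Prop :=
  ∃ d : ℕ, 1 ≤ d ∧ ∃ φ : R →+ R, IsCartierMap p d φ ∧ Function.Surjective φ ∧
    ∀ e, ∀ s ∈ b (e + d), φ s ∈ b e

variable (p : ℕ) [Fact p.Prime]

abbrev RR : Type := MvPolynomial (Fin 2) (ZMod p)

lemma ffinite : (frobenius (RR p) p).Finite := by
  apply RingHom.IsIntegral.to_finite
  · intro s
    refine ⟨Polynomial.X ^ p - Polynomial.C s,
      Polynomial.monic_X_pow_sub_C s (Fact.out : p.Prime).ne_zero, ?_⟩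
    simp [frobenius_def]
  · apply RingHom.FiniteType.of_comp_finiteType (f := algebraMap (ZMod p) (RR p))
    have : (frobenius (RR p) p).comp (algebraMap (ZMod p) (RR p)) = algebraMap (ZMod p) (RR p) :=
      RingHom.ext_zmod _ _
    rw [this, RingHom.finiteType_algebraMap]
    infer_instance

open Classical in
noncomputable def proj (q : ℕ) (a : Fin 2 →₀ ℕ) : RR p →ₗ[ZMod p] RR p :=
  (basisMonomials (Fin 2) (ZMod p)).constr (ZMod p) fun d =>
    if ∀ i, d i % q = a i then monomial (d.mapRange (· / q) (by simp)) 1 else 0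

open Classical in
lemma proj_mono (q : ℕ) (a d : Fin 2 →₀ ℕ) (c : ZMod p) :
    proj p q a (monomial d c) =
      if ∀ i, d i % q = a i then monomial (d.mapRange (· / q) (by simp)) c else 0 := by
  have e1 : (monomial d c : RR p) = c • basisMonomials (Fin 2) (ZMod p) d := by
    simp [smul_monomial]
  rw [e1, map_smul, proj, Module.Basis.constr_basis]
  split_ifs <;> simp [smul_monomial]

lemma proj_X (q : ℕ) (hq : 0 < q) (a : Fin 2 →₀ ℕ) (i : Fin 2) (s : RR p) :
    proj p q a (X i ^ q * s) = X i * proj p q a s := by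
  induction s using MvPolynomial.induction_on' with
  | add s t hs ht => simp only [mul_add, map_add, hs, ht]
  | monomial d c =>
    rw [X_pow_eq_monomial, monomial_mul, proj_mono, proj_mono]
    have h1 : ∀ j, (Finsupp.single i q + d : Fin 2 →₀ ℕ) j % q = d j % q := by
      intro j
      by_cases h : i = j
      · subst h; simp
      · simp [Finsupp.single_apply, h]
    simp only [h1]
    split_ifs with h
    · rw [X, monomial_mul]
      congr 2
      ext j
      by_cases h : i = j
      · subst h; simp [Nat.add_div_left _ hq, add_comm, Nat.add_div_right _ hq]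
      · simp [Finsupp.single_apply, h]
    · simp

lemma proj_cartier (e : ℕ) (a : Fin 2 →₀ ℕ) (r s : RR p) :
    proj p (p ^ e) a (r ^ p ^ e * s) = r * proj p (p ^ e) a s := by
  induction r using MvPolynomial.induction_on generalizing s with
  | C c =>
    rw [← map_pow, ZMod.pow_card_pow, ← smul_eq_C_mul, ← smul_eq_C_mul, map_smul]
  | add r t hr ht => rw [add_pow_char_pow, add_mul, map_add, hr, ht, add_mul]
  | mul_X r i hr =>
    rw [mul_pow, mul_assoc, hr, proj_X p _ (pow_pos (Fact.out : p.Prime).pos e), mul_assoc]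

lemma sfr : StronglyFRegular p (RR p) := by
  intro c hc
  have hc0 : c ≠ 0 := by
    rintro rfl
    obtain ⟨P, hP, -⟩ := Ideal.exists_minimalPrimes_le (I := (⊥ : Ideal (RR p))) (J := ⊥) le_rfl
    exact hc P hP (zero_mem _)
  obtain ⟨a, ha⟩ := ne_zero_iff.1 hc0
  have hlt : ∀ d ∈ c.support, ∀ i, d i < p ^ (c.totalDegree + 1) := by
    intro d hd i
    have h1 : d i ≤ c.totalDegree :=
      le_trans (monomial_le_degreeOf i hd) (degreeOf_le_totalDegree c i)
    have h2 := Nat.lt_pow_self (n := c.totalDegree + 1) (Fact.out : p.Prime).one_lt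
    omega
  obtain ⟨e, he, hlt⟩ : ∃ e, 1 ≤ e ∧ ∀ d ∈ c.support, ∀ i, d i < p ^ e := ⟨_, by omega, hlt⟩
  refine ⟨e, he, ((coeff a c)⁻¹ • proj p (p ^ e) a).toAddMonoidHom, ?_, ?_⟩
  · intro r s
    simp [proj_cartier]
  · have : proj p (p ^ e) a c = C (coeff a c) := by
      conv_lhs => rw [c.as_sum]
      rw [map_sum, Finset.sum_eq_single a]
      · rw [proj_mono, if_pos]
        · have : a.mapRange (· / p ^ e) (by simp) = 0 := by
            ext i
            simpa using Or.inr (hlt a (mem_support_iff.2 ha) i)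
          rw [this]; rfl
        · intro i
          exact Nat.mod_eq_of_lt (hlt a (mem_support_iff.2 ha) i)
      · intro d hd hda
        rw [proj_mono, if_neg]
        intro h
        apply hda
        ext i
        rw [← h i, Nat.mod_eq_of_lt (hlt d hd i)]
      · intro h
        exact absurd (mem_support_iff.2 ha) h
    simp only [LinearMap.toAddMonoidHom_coe, LinearMap.smul_apply, this, smul_eq_C_mul,
      ← map_mul, inv_mul_cancel₀ ha, map_one]

noncomputable def par : RR p →+* Polynomial (ZMod p) :=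
  eval₂Hom Polynomial.C ![Polynomial.X ^ 2, Polynomial.X ^ 3]

lemma par_coeff (w : RR p) : (par p w).coeff 1 = 0 := by
  induction w using MvPolynomial.induction_on with
  | C c => simp [par, Polynomial.coeff_C]
  | add r t hr ht => simp [hr, ht]
  | mul_X r i _ =>
    rw [map_mul]
    fin_cases i <;> simp [par, Polynomial.coeff_mul_X_pow']

lemma notS : ¬ PropertyS p (fun _ => RingHom.ker (par p)) := by
  rintro ⟨d, hd, φ, hφ, hs, hb⟩
  obtain ⟨s, hs1⟩ := hs 1
  have hq : 2 ≤ p ^ d := le_trans (Fact.out : p.Prime).two_le (Nat.le_self_pow (by omega) p)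
  obtain ⟨a, b, hab⟩ : ∃ a b, p ^ d = 2 * a + 3 * b := by
    rcases Nat.even_or_odd' (p ^ d) with ⟨k, h | h⟩
    · exact ⟨k, 0, by omega⟩
    · exact ⟨k - 1, 1, by omega⟩
  have h1 : X 0 ^ p ^ d * (X 0 ^ a * X 1 ^ b * s) - X 1 ^ p ^ d * s ∈ RingHom.ker (par p) := by
    rw [RingHom.mem_ker]
    simp only [map_sub, map_mul, map_pow]
    simp only [par, eval₂Hom_X', Matrix.cons_val_zero, Matrix.cons_val_one]
    rw [hab]
    ring
  have h2 := hb 0 _ h1
  rw [map_sub, hφ, hφ, hs1, RingHom.mem_ker] at h2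
  have h3 := congrArg (fun g => Polynomial.coeff g 3) h2
  have h4 := par_coeff p (φ (X 0 ^ a * X 1 ^ b * s))
  simp only [map_sub, map_mul, map_one, mul_one] at h3
  generalize par p (φ (X 0 ^ a * X 1 ^ b * s)) = g at h3 h4
  simp [par, Polynomial.coeff_X_pow_mul', h4] at h3

theorem result (p : ℕ) [Fact p.Prime] :
    ∃ (R : Type) (_ : CommRing R) (_ : CharP R p), IsNoetherianRing R ∧
      (frobenius R p).Finite ∧ StronglyFRegular p R ∧
      ∃ b : ℕ → Ideal R, IsPFamily p b ∧ IsPStable p b ∧ ¬ PropertyS p b := by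
  refine ⟨RR p, inferInstance, inferInstance, inferInstance, ffinite p, sfr p,
    fun _ => RingHom.ker (par p), ?_, ?_, notS p⟩
  · intro e
    rw [frobeniusPower, Ideal.span_le]
    rintro _ ⟨g, hg, rfl⟩
    exact Ideal.pow_mem_of_mem _ hg _ (Fact.out : p.Prime).pos
  · intro e
    ext r
    constructor
    · rintro ⟨N, hN⟩
      have := hN N le_rfl
      rw [RingHom.mem_ker, map_pow] at this
      exact pow_eq_zero_iff (pow_pos (Fact.out : p.Prime).pos N).ne' |>.1 this
    · intro hr
      exact ⟨0, fun f _ => Ideal.pow_mem_of_mem _ hr _ (pow_pos (Fact.out : p.Prime).pos f)⟩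

end Pool.Agent.Results.MP_30687b_ag.Cusp
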